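import Mathlib
import Pool.Agent.Helper548.R473.Sel
import Pool.Agent.Helper548.R473.NoChain

/-! The top layer: infinitely many ultrafilters on `F`, finitely many on `N`. -/

set_option linter.unusedSectionVars false

open Set Filter Topology Pointwise

namespace H548R

variable {G : Type*} [Group G] [TopologicalSpace G] [IsTopologicalGroup G]

/-- product of ultrafilters -/
def pr (r p : Ultrafilter G) : Ultrafilter G := @Mul.mul _ Ultrafilter.mul r p

lemma pr_mem {r p : Ultrafilter G} {A : Set G} :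
    A ∈ pr r p ↔ ∀ᶠ s in (r : Filter G), ∀ᶠ w in (p : Filter G), s * w ∈ A :=
  Ultrafilter.eventually_mul r p (fun x => x ∈ A)

/-- free ultrafilters on `F` converging to the identity -/
def UF (F : Set G) : Set (Ultrafilter G) :=
  {p | (p : Filter G) ≤ cofinite ∧ (p : Filter G) ≤ 𝓝 1 ∧ F ∈ p}

/-- The data obtained from the selection lemma. -/
theorem exists_types [Countable G] [T2Space G] (hb : ClBase G) (hG : NoRes G) {F N : Set G}
    (hF : LH F)
    (hmax : ∀ A, ClNwd F A → ∀ᶠ y in 𝓝 (1:G), y ∈ A → y ∈ N)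
    (hinf : (UF F).Infinite) (hfin : (UF N).Finite) :
    ∃ (q : ℕ → Ultrafilter G) (ty : G → ℕ),
      (∀ j, (q j : Filter G) ≤ 𝓝 1) ∧ (∀ j, F ∈ q j) ∧ (∀ j, N ∉ q j) ∧
      (∀ j, ∀ᶠ w in (q j : Filter G), ty w = j + 1) ∧
      (∀ᶠ x in 𝓝 (1:G), x ∈ F → x ∉ N → ∀ᶠ y in 𝓝 (1:G), x * y ∈ F → ty (x * y) = ty x) ∧
      (∀ j, ∀ᶠ s in 𝓝 (1:G), s ∈ N → ∀ᶠ w in (q j : Filter G), ty (s * w) = 0 ∨ ty (s * w) = j + 1) := by
  classical
  have hL : (UF F \ UF N).Infinite := hinf.sdiff hfin
  obtain ⟨p, B, hp, hBp, hB⟩ := sel0 _ hL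
  obtain ⟨φ, hφ, hsel⟩ := sel hfin.toFinset B hB (fun r i => pr r (p i))
  set q : ℕ → Ultrafilter G := fun j => p (φ j) with hq
  set A : ℕ → Set G := fun j => B (φ j) with hA
  have hAq : ∀ j, A j ∈ q j := fun j => hBp _
  have hAd : ∀ i j, i ≠ j → Disjoint (A i) (A j) := fun i j hij => hB _ _ (fun h => hij (hφ.injective h))
  have hsel' : ∀ r ∈ UF N, ∀ j, (⋃ i ∈ {i | i ≠ j}, A i) ∉ pr r (q j) := by
    intro r hr j
    exact hsel r (by simpa using hr) j
  have hqF : ∀ j, F ∈ q j := fun j => (hp _).1.2.2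
  have hq1 : ∀ j, (q j : Filter G) ≤ 𝓝 1 := fun j => (hp _).1.2.1
  have hqN : ∀ j, N ∉ q j := fun j h => (hp _).2 ⟨(hp _).1.1, (hp _).1.2.1, h⟩
  let O : ℕ → Set G := fun j => {x | x ∈ F ∧ x ∈ A j ∧ ∀ᶠ y in 𝓝 (1:G), x * y ∈ F → x * y ∈ A j}
  have hOA : ∀ j, O j ⊆ A j := fun j x hx => hx.2.1
  have hOd : ∀ i j, i ≠ j → Disjoint (O i) (O j) := fun i j hij => (hAd i j hij).mono (hOA i) (hOA j)
  -- a general fact
  have ev2 : ∀ (P : G → Prop) (x : G), (∀ᶠ y in 𝓝 (1:G), P (x * y)) →
      ∀ᶠ y in 𝓝 (1:G), ∀ᶠ w in 𝓝 (1:G), P (x * y * w) := by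
    intro P x h
    obtain ⟨W, hWs, hW, h1W⟩ := mem_nhds_iff.1 h
    filter_upwards [hW.mem_nhds h1W] with y hy
    filter_upwards [ev_open hW hy] with w hw
    have := hWs hw
    rw [mul_assoc]; exact this
  have notin_closure : ∀ (E : Set G) (x : G), (∀ᶠ y in 𝓝 (1:G), x * y ∉ E) → x ∉ closure E := by
    intro E x h hc
    rw [mem_closure_iff_frequently, ← map_mul_left_nhds_one x] at hc
    exact hc h
  have hrel : ∀ j x, x ∈ O j → ∀ᶠ y in 𝓝 (1:G), x * y ∈ F → x * y ∈ O j := by
    intro j x hx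
    have h2 := ev2 (fun z => z ∈ F → z ∈ A j) x hx.2.2
    filter_upwards [h2, hx.2.2] with y h3 h4 h5
    exact ⟨h5, h4 h5, h3⟩
  -- `O j` belongs to `q j`
  have hOq : ∀ j, O j ∈ q j := by
    intro j
    set E : Set G := (F ∩ A j) \ O j with hE
    have hEF : closure E ⊆ F := closure_minimal (fun x hx => hx.1.1) hF.closed
    have hEn : ClNwd F (closure E) := by
      refine ⟨isClosed_closure, hEF, ?_⟩
      intro x hx
      refine (ir_dense hb hG hF E hx).mono ?_
      rintro u ⟨h1, h2⟩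
      refine ⟨h1, ?_⟩
      have hnot : x * u ∉ E := by
        intro hmem
        apply hmem.2
        refine ⟨h1, hmem.1.2, ?_⟩
        filter_upwards [h2] with y h3 h4
        exact ((h3 h4).2 hmem).1.2
      apply notin_closure
      filter_upwards [h2] with y h3 h4
      exact hnot ((h3 h4.1.1).1 h4)
    have h1 : closure E ∉ q j := by
      intro hc
      have h2 : ∀ᶠ y in (q j : Filter G), y ∈ closure E → y ∈ N := (hq1 j) (hmax _ hEn)
      have h3 : ∀ᶠ y in (q j : Filter G), y ∈ closure E := hc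
      have h4 : ∀ᶠ y in (q j : Filter G), y ∈ N := by
        filter_upwards [h2, h3] with y h5 h6 using h5 h6
      exact hqN j h4
    have h2 : E ∉ q j := fun hc => h1 (mem_of_superset hc subset_closure)
    have h3 : Eᶜ ∈ q j := Ultrafilter.compl_mem_iff_notMem.2 h2
    have h4 := inter_mem (inter_mem (hqF j) (hAq j)) h3
    refine mem_of_superset h4 ?_
    rintro x ⟨h5, h6⟩
    by_contra h7
    exact h6 ⟨h5, h7⟩
  -- type function
  let ty : G → ℕ := fun x => if h : ∃ j, x ∈ O j then h.choose + 1 else 0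
  have ty1 : ∀ j x, x ∈ O j → ty x = j + 1 := by
    intro j x hx
    have hex : ∃ j, x ∈ O j := ⟨j, hx⟩
    have h1 : ty x = hex.choose + 1 := by simp only [ty, dif_pos hex]
    rw [h1]
    by_contra hne
    have hne' : hex.choose ≠ j := fun h => hne (by rw [h])
    exact (Set.disjoint_left.1 (hOd _ _ hne')) hex.choose_spec hx
  have ty0 : ∀ x, (∀ j, x ∉ O j) → ty x = 0 := by
    intro x hx
    have hex : ¬ ∃ j, x ∈ O j := by push Not; exact hx
    simp only [ty, dif_neg hex]
  have ty2 : ∀ x j, ty x = j + 1 → x ∈ O j := by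
    intro x j h
    by_cases hex : ∃ j, x ∈ O j
    · obtain ⟨i, hi⟩ := hex
      have := ty1 i x hi
      have : i = j := by omega
      rw [← this]; exact hi
    · push Not at hex
      rw [ty0 x hex] at h
      omega
  refine ⟨q, ty, hq1, hqF, hqN, ?_, ?_, ?_⟩
  · intro j
    filter_upwards [hOq j] with w hw using ty1 j w hw
  · -- local constancy
    set M : Set G := {x | x ∈ F ∧ ¬ ∀ᶠ y in 𝓝 (1:G), x * y ∈ F → ty (x * y) = ty x} with hM
    have hMF : closure M ⊆ F := closure_minimal (fun x hx => hx.1) hF.closed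
    have hMn : ClNwd F (closure M) := by
      refine ⟨isClosed_closure, hMF, ?_⟩
      intro x hx
      refine (ir_dense hb hG hF (⋃ j, O j) hx).mono ?_
      rintro u ⟨h1, h2⟩
      refine ⟨h1, ?_⟩
      apply notin_closure
      by_cases hz : x * u ∈ ⋃ j, O j
      · obtain ⟨j, hj⟩ := mem_iUnion.1 hz
        have h3 := hrel j _ hj
        have h4 := ev2 (fun z => z ∈ F → z ∈ O j) _ h3
        filter_upwards [h3, h4] with y h5 h6 h7
        apply h7.2
        filter_upwards [h6] with w h8 h9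
        rw [ty1 j _ (h8 h9), ty1 j _ (h5 h7.1)]
      · have h3 : ∀ᶠ y in 𝓝 (1:G), x * u * y ∈ F → x * u * y ∉ ⋃ j, O j := by
          filter_upwards [h2] with y h4 h5 h6
          exact hz ((h4 h5).1 h6)
        have h4 := ev2 (fun z => z ∈ F → z ∉ ⋃ j, O j) _ h3
        filter_upwards [h3, h4] with y h5 h6 h7
        apply h7.2
        filter_upwards [h6] with w h8 h9
        rw [ty0 _ (fun j hj => h8 h9 (mem_iUnion.2 ⟨j, hj⟩)),
          ty0 _ (fun j hj => h5 h7.1 (mem_iUnion.2 ⟨j, hj⟩))]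
    filter_upwards [hmax _ hMn] with x hx hxF hxN
    by_contra hcon
    exact hxN (hx (subset_closure ⟨hxF, hcon⟩))
  · -- control
    intro j
    by_contra hcon
    set bad : Set G := {s | s ∈ N ∧ ¬ ∀ᶠ w in (q j : Filter G), ty (s * w) = 0 ∨ ty (s * w) = j + 1}
      with hbad
    have hfr : ∃ᶠ s in 𝓝 (1:G), s ∈ bad := by
      intro hc
      apply hcon
      filter_upwards [hc] with s hs hsN
      by_contra h
      exact hs ⟨hsN, h⟩
    have hne : (𝓝 (1:G) ⊓ 𝓟 bad).NeBot := by
      rw [← Filter.frequently_mem_iff_neBot]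
      exact hfr
    set r : Ultrafilter G := @Ultrafilter.of _ (𝓝 (1:G) ⊓ 𝓟 bad) hne with hr
    have hr1 : (r : Filter G) ≤ 𝓝 1 := (Ultrafilter.of_le _).trans inf_le_left
    have hr2 : bad ∈ r := by
      have : (r : Filter G) ≤ 𝓟 bad := (Ultrafilter.of_le _).trans inf_le_right
      exact this (mem_principal_self bad)
    have h1bad : (1:G) ∉ bad := by
      rintro ⟨_, h⟩
      apply h
      filter_upwards [hOq j] with w hw
      right
      rw [one_mul]; exact ty1 j w hw
    have hrc : (r : Filter G) ≤ cofinite := by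
      rcases Ultrafilter.le_cofinite_or_eq_pure r with h | ⟨a, ha⟩
      · exact h
      · exfalso
        rw [ha] at hr1 hr2
        have : (pure a : Filter G) ≤ 𝓝 1 := hr1
        rw [pure_le_nhds_iff] at this
        subst this
        exact h1bad hr2
    have hrN : r ∈ UF N := ⟨hrc, hr1, mem_of_superset hr2 (fun s hs => hs.1)⟩
    apply hsel' r hrN j
    rw [pr_mem]
    filter_upwards [hr2] with s hs
    have h5 : ∀ᶠ w in (q j : Filter G), ¬ (ty (s * w) = 0 ∨ ty (s * w) = j + 1) :=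
      Ultrafilter.eventually_not.2 hs.2
    filter_upwards [h5] with w hw
    push Not at hw
    obtain ⟨k, hk⟩ := Nat.exists_eq_succ_of_ne_zero hw.1
    have h6 := ty2 _ k hk
    simp only [mem_iUnion]
    refine ⟨k, ?_, hOA k h6⟩
    intro hkj
    have : k = j := hkj
    subst this
    exact hw.2 hk


open Classical in
/-- first nonzero type up to the first letter outside `N` -/
noncomputable def phi (lam : ℕ → G) (N : Set G) (ty : G → ℕ) : List ℕ → ℕ
  | [] => 0
  | (m :: l) => if ty (el lam (m :: l)) ≠ 0 then ty (el lam (m :: l)) else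
      if lam m ∈ N then phi lam N ty l else 0

open Classical in
/-- last letter outside `N` -/
noncomputable def lastK (lam : ℕ → G) (N : Set G) : List ℕ → ℕ
  | [] => 0
  | (m :: l) => if ∃ k ∈ l, lam k ∉ N then lastK lam N l else if lam m ∉ N then m else 0

lemma lastK_append {lam : ℕ → G} {N : Set G} (l l' : List ℕ) (h : ∃ k ∈ l', lam k ∉ N) :
    lastK lam N (l ++ l') = lastK lam N l' := by
  induction l with
  | nil => rfl
  | cons m l ih =>
    have : ∃ k ∈ l ++ l', lam k ∉ N := by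
      obtain ⟨k, hk, hk2⟩ := h
      exact ⟨k, by simp [hk], hk2⟩
    simp only [List.cons_append, lastK]
    rw [if_pos this, ih]

lemma lastK_mem {lam : ℕ → G} {N : Set G} (l : List ℕ) (h : ∃ k ∈ l, lam k ∉ N) :
    lastK lam N l ∈ l := by
  induction l with
  | nil => simp at h
  | cons m l ih =>
    simp only [lastK]
    by_cases h2 : ∃ k ∈ l, lam k ∉ N
    · rw [if_pos h2]
      exact List.mem_cons_of_mem _ (ih h2)
    · rw [if_neg h2]
      obtain ⟨k, hk, hk2⟩ := h
      rcases List.mem_cons.1 hk with rfl | hk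
      · rw [if_pos hk2]; simp
      · exact absurd ⟨k, hk, hk2⟩ h2

/-- the counted property -/
def q0 (lam : ℕ → G) (N : Set G) (ty : G → ℕ) (m : ℕ) (l : List ℕ) : Prop :=
  lam m ∉ N ∧ (∃ k ∈ l, lam k ∉ N) ∧ m ≤ phi lam N ty l

/-- the modified property -/
def q1 (lam : ℕ → G) (N : Set G) (ty : G → ℕ) (j : ℕ) (m : ℕ) (l : List ℕ) : Prop :=
  lam m ∉ N ∧ (((∃ k ∈ l, lam k ∉ N) ∧ m ≤ phi lam N ty l) ∨ ((¬ ∃ k ∈ l, lam k ∉ N) ∧ m ≤ j))

lemma ct_zero (q : ℕ → List ℕ → Prop) (l : List ℕ) (h : ∀ m ∈ l, ∀ b, ¬ q m b) : ct q l = 0 := by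
  induction l with
  | nil => rfl
  | cons m l ih =>
    simp only [ct]
    rw [if_neg (h m (by simp) l), ih (fun k hk => h k (by simp [hk]))]

open Classical in
lemma ct_q1 (lam : ℕ → G) (N : Set G) (ty : G → ℕ) (j : ℕ) (l : List ℕ)
    (h : ∃ k ∈ l, lam k ∉ N) :
    ct (q1 lam N ty j) l = ct (q0 lam N ty) l + (if lastK lam N l ≤ j then 1 else 0) := by
  induction l with
  | nil => simp at h
  | cons m l ih =>
    by_cases h2 : ∃ k ∈ l, lam k ∉ N
    · have e : lastK lam N (m :: l) = lastK lam N l := by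
        simp only [lastK]
        rw [if_pos h2]
      rw [e]
      simp only [ct]
      rw [ih h2]
      have : q1 lam N ty j m l ↔ q0 lam N ty m l := by
        unfold q1 q0
        constructor
        · intro h
          rcases h.2 with h3 | h3
          · exact ⟨h.1, h2, h3.2⟩
          · exact absurd h2 h3.1
        · intro h
          exact ⟨h.1, Or.inl ⟨h2, h.2.2⟩⟩
      by_cases h3 : q0 lam N ty m l
      · rw [if_pos h3, if_pos (this.2 h3)]; ring
      · rw [if_neg h3, if_neg (fun h => h3 (this.1 h))]; ring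
    · have hm : lam m ∉ N := by
        obtain ⟨k, hk, hk2⟩ := h
        rcases List.mem_cons.1 hk with rfl | hk
        · exact hk2
        · exact absurd ⟨k, hk, hk2⟩ h2
      have e : lastK lam N (m :: l) = m := by
        simp only [lastK]
        rw [if_neg h2, if_pos hm]
      rw [e]
      simp only [ct]
      have hl : ∀ k ∈ l, lam k ∈ N := by
        intro k hk
        by_contra hc
        exact h2 ⟨k, hk, hc⟩
      rw [ct_zero (q1 lam N ty j) l (fun k hk b hc => hc.1 (hl k hk)),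
        ct_zero (q0 lam N ty) l (fun k hk b hc => hc.1 (hl k hk))]
      have h4 : q1 lam N ty j m l ↔ m ≤ j := by
        unfold q1; tauto
      have h5 : ¬ q0 lam N ty m l := fun hc => h2 hc.2.1
      rw [if_neg h5]
      by_cases h6 : m ≤ j
      · rw [if_pos (h4.2 h6), if_pos h6]
      · rw [if_neg (fun h => h6 (h4.1 h)), if_neg h6]

theorem top_layer [Countable G] [T2Space G] (hb : ClBase G) (hG : NoRes G) {F N : Set G}
    (hF : LH F) (hN : LH N)
    (hmax : ∀ A, ClNwd F A → ∀ᶠ y in 𝓝 (1:G), y ∈ A → y ∈ N)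
    (hinf : (UF F).Infinite) (hfin : (UF N).Finite) : False := by
  classical
  obtain ⟨q, ty, hq1, hqF, hqN, hqty, hloc, hctl⟩ := exists_types hb hG hF hmax hinf hfin
  set U0 : Set G := {x | x ∈ F → x ∉ N → ∀ᶠ y in 𝓝 (1:G), x * y ∈ F → ty (x * y) = ty x} with hU0
  have hU0n : U0 ∈ 𝓝 (1:G) := hloc
  let U : G → Set G := fun x => {y | (x ∈ F → (x * y ∈ F ↔ y ∈ F)) ∧ (x ∉ F → x * y ∉ F) ∧
    (x ∈ N → (x * y ∈ N ↔ y ∈ N)) ∧ (x ∉ N → x * y ∉ N) ∧
    (x ∈ F → x ∉ N → x ∈ U0 → x * y ∈ F → ty (x * y) = ty x)}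
  have hU : ∀ x, U x ∈ 𝓝 (1:G) := by
    intro x
    have e1 : ∀ᶠ y in 𝓝 (1:G), (x ∈ F → (x * y ∈ F ↔ y ∈ F)) := by
      by_cases hx : x ∈ F
      · filter_upwards [hF.hom x hx] with y hy _ using hy
      · exact Eventually.of_forall (fun y h => absurd h hx)
    have e2 : ∀ᶠ y in 𝓝 (1:G), (x ∉ F → x * y ∉ F) := by
      by_cases hx : x ∈ F
      · exact Eventually.of_forall (fun y h => absurd hx h)
      · filter_upwards [ev_compl hF.closed hx] with y hy _ using hy
    have e3 : ∀ᶠ y in 𝓝 (1:G), (x ∈ N → (x * y ∈ N ↔ y ∈ N)) := by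
      by_cases hx : x ∈ N
      · filter_upwards [hN.hom x hx] with y hy _ using hy
      · exact Eventually.of_forall (fun y h => absurd h hx)
    have e4 : ∀ᶠ y in 𝓝 (1:G), (x ∉ N → x * y ∉ N) := by
      by_cases hx : x ∈ N
      · exact Eventually.of_forall (fun y h => absurd hx h)
      · filter_upwards [ev_compl hN.closed hx] with y hy _ using hy
    have e5 : ∀ᶠ y in 𝓝 (1:G), (x ∈ F → x ∉ N → x ∈ U0 → x * y ∈ F → ty (x * y) = ty x) := by
      by_cases hx : x ∈ F ∧ x ∉ N ∧ x ∈ U0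
      · filter_upwards [hx.2.2 hx.1 hx.2.1] with y hy _ _ _ using hy
      · exact Eventually.of_forall (fun y h1 h2 h3 => absurd ⟨h1, h2, h3⟩ hx)
    filter_upwards [e1, e2, e3, e4, e5] with y h1 h2 h3 h4 h5
    exact ⟨h1, h2, h3, h4, h5⟩
  have hU1 : U 1 = univ := by
    ext y
    simp [U, hN.one_mem, hF.one_mem]
  let V : ℕ → Set G := fun n => match n with
    | 0 => univ
    | (n+1) => {s | s ∈ U0 ∧ (s ∈ N → ∀ᶠ w in (q n : Filter G), ty (s * w) = 0 ∨ ty (s * w) = n + 1)}
  have hV : ∀ n, V n ∈ 𝓝 (1:G) := by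
    intro n
    cases n with
    | zero => exact univ_mem
    | succ n =>
      filter_upwards [hU0n, hctl n] with s h1 h2
      exact ⟨h1, h2⟩
  obtain ⟨C⟩ := exists_coord hb U V hU hU1 hV rfl
  have CU : ∀ x y, y ∈ C.W (C.t x) → (x ∈ F → (x * y ∈ F ↔ y ∈ F)) ∧ (x ∉ F → x * y ∉ F) ∧
    (x ∈ N → (x * y ∈ N ↔ y ∈ N)) ∧ (x ∉ N → x * y ∉ N) ∧
    (x ∈ F → x ∉ N → x ∈ U0 → x * y ∈ F → ty (x * y) = ty x) := by
    intro x y hy
    exact C.U_sub x hy
  have CV : ∀ n s, s ∈ C.W (n+1) → s ∈ U0 ∧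
      (s ∈ N → ∀ᶠ w in (q n : Filter G), ty (s * w) = 0 ∨ ty (s * w) = n + 1) := by
    intro n s hs
    exact C.V_sub (n+1) hs
  have letter : ∀ (a b : List ℕ) m, C.wd (el C.lam (a ++ m :: b)) = a ++ m :: b → 1 ≤ m := by
    intro a b m h
    have := C.lt 0 (el C.lam (a ++ m :: b)) (by rw [C.W_zero]; trivial) m (by rw [h]; simp)
    omega
  -- words in N
  have inN : ∀ l, C.wd (el C.lam l) = l → (el C.lam l ∈ N ↔ ∀ m ∈ l, C.lam m ∈ N) := by
    intro l
    induction l with
    | nil => intro _; simp [hN.one_mem]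
    | cons m l ih =>
      intro hv
      have hv1 : C.wd (el C.lam (m :: l)) = [m] ++ l := hv
      obtain ⟨d1, d2, d3⟩ := C.dec _ _ _ hv1
      have hm : el C.lam [m] = C.lam m := by simp
      have hy : el C.lam l ∈ C.W (C.t (C.lam m)) := by
        unfold Coord.t; rw [← hm, d1]; exact d3
      have hCU := CU _ _ hy
      rw [el_cons]
      have ihl := ih d2
      constructor
      · intro h
        have hmN : C.lam m ∈ N := by
          by_contra hc
          exact hCU.2.2.2.1 hc h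
        intro k hk
        rcases List.mem_cons.1 hk with rfl | hk
        · exact hmN
        · exact ihl.1 ((hCU.2.2.1 hmN).1 h) k hk
      · intro h
        have hmN := h m (by simp)
        exact (hCU.2.2.1 hmN).2 (ihl.2 (fun k hk => h k (by simp [hk])))
  have notN : ∀ l, C.wd (el C.lam l) = l → (el C.lam l ∉ N ↔ ∃ m ∈ l, C.lam m ∉ N) := by
    intro l hl
    rw [inN l hl]; push Not; rfl
  have notN' : ∀ x, x ∉ N ↔ ∃ m ∈ C.wd x, C.lam m ∉ N := by
    intro x
    have := notN (C.wd x) (by rw [C.el_wd])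
    rwa [C.el_wd] at this
  -- suffixes of elements of F
  have sufF : ∀ x a b, x ∈ F → C.wd x = a ++ b → el C.lam b ∈ F := by
    intro x a b hx hab
    obtain ⟨d1, d2, d3⟩ := C.dec _ _ _ hab
    have hy : el C.lam b ∈ C.W (C.t (el C.lam a)) := by
      unfold Coord.t; rw [d1]; exact d3
    have hCU := CU _ _ hy
    rw [← C.split hab] at hCU
    have ha : el C.lam a ∈ F := by
      by_contra hc
      exact hCU.2.1 hc hx
    exact (hCU.1 ha).1 hx
  let c : G → ℕ := fun x => ct (q0 C.lam N ty) (C.wd x)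
  -- main formula
  have FL : ∀ x ∈ F, x ∉ N → ∀ j, j + 1 ≤ lastK C.lam N (C.wd x) →
      ∀ᶠ w in (q j : Filter G), c (x * w) = c x +
        (if lastK C.lam N (C.wd x) ≤ j + 1 then 1 else 0) + c w := by
    intro x hx hxN j hj
    -- finitely many suffixes
    have hsuf : ∀ᶠ w in (q j : Filter G), ∀ b ∈ {b | b ∈ (C.wd x).tails}, el C.lam b ∈ N →
        el C.lam b ∈ C.W (j+1) → (ty (el C.lam b * w) = 0 ∨ ty (el C.lam b * w) = j + 1) := by
      rw [Filter.eventually_all_finite (List.finite_toSet _)]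
      intro b _
      by_cases h : el C.lam b ∈ N ∧ el C.lam b ∈ C.W (j+1)
      · filter_upwards [(CV j _ h.2).2 h.1] with w hw _ _ using hw
      · exact Eventually.of_forall (fun w h1 h2 => absurd ⟨h1, h2⟩ h)
    have hWq : ∀ᶠ w in (q j : Filter G), w ∈ C.W (C.t x) := (hq1 j) (C.W_nhds _)
    have hFq : ∀ᶠ w in (q j : Filter G), w ∈ F := hqF j
    have hNq : ∀ᶠ w in (q j : Filter G), w ∉ N := Ultrafilter.compl_mem_iff_notMem.2 (hqN j)
    filter_upwards [hsuf, hWq, hFq, hNq, hqty j] with w hw1 hw2 hw3 hw4 hw5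
    have hwK : ∃ k ∈ C.wd w, C.lam k ∉ N := (notN' w).1 hw4
    have hxK : ∃ k ∈ C.wd x, C.lam k ∉ N := (notN' x).1 hxN
    have happ : C.wd (x * w) = C.wd x ++ C.wd w := C.app x w hw2
    have hphiw : phi C.lam N ty (C.wd w) = j + 1 := by
      obtain ⟨k, hk, -⟩ := hwK
      cases hcw : C.wd w with
      | nil => rw [hcw] at hk; simp at hk
      | cons m l =>
        have h1 : el C.lam (m :: l) = w := by rw [← hcw, C.el_wd]
        simp only [phi, h1, hw5]
        simp
    -- suffix facts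
    have hsufw : ∀ a b, C.wd x = a ++ b → b ≠ [] → w ∈ C.W (C.t (el C.lam b)) := by
      intro a b hab hbne
      obtain ⟨d1, d2, d3⟩ := C.dec _ _ _ hab
      have : C.t (el C.lam b) = C.t x := by
        unfold Coord.t
        rw [d2, hab, last_append]
        exact last_eq_of_ne hbne
      rw [this]; exact hw2
    -- phi on suffixes with a K-letter
    have phi1 : ∀ b a, C.wd x = a ++ b → a ≠ [] → (∃ k ∈ b, C.lam k ∉ N) →
        phi C.lam N ty (b ++ C.wd w) = phi C.lam N ty b := by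
      intro b
      induction b with
      | nil => intro a _ _ h; simp at h
      | cons k b ih =>
        intro a hab hane hK
        obtain ⟨d1, d2, d3⟩ := C.dec _ _ _ hab
        have hbN : el C.lam (k :: b) ∉ N := (notN _ d2).2 hK
        have hbF : el C.lam (k :: b) ∈ F := sufF x a _ hx hab
        have hWw := hsufw a _ hab (by simp)
        have hbU : el C.lam (k :: b) ∈ U0 := by
          have h1 : 1 ≤ last 0 a := by
            have h2 : last 0 a ∈ a := last_mem_of_ne hane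
            have h3 := C.lt 0 (el C.lam a) (by rw [C.W_zero]; trivial) (last 0 a) (by rw [d1]; exact h2)
            omega
          exact (CV 0 _ (C.W_anti 1 _ h1 d3)).1
        have hCU := CU _ _ hWw
        have hty : ty (el C.lam (k :: b) * w) = ty (el C.lam (k :: b)) :=
          hCU.2.2.2.2 hbF hbN hbU ((hCU.1 hbF).2 hw3)
        have hel : el C.lam (k :: (b ++ C.wd w)) = el C.lam (k :: b) * w := by
          rw [← List.cons_append, el_append, C.el_wd]
        simp only [List.cons_append, phi, hel, hty]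
        by_cases h0 : ty (el C.lam (k :: b)) ≠ 0
        · rw [if_pos h0, if_pos h0]
        · rw [if_neg h0, if_neg h0]
          by_cases hk : C.lam k ∈ N
          · rw [if_pos hk, if_pos hk]
            apply ih (a ++ [k]) (by rw [hab]; simp) (by simp)
            obtain ⟨k', hk', hk''⟩ := hK
            rcases List.mem_cons.1 hk' with rfl | hk'
            · exact absurd hk hk''
            · exact ⟨k', hk', hk''⟩
          · rw [if_neg hk, if_neg hk]
    -- phi on suffixes without a K-letter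
    have phi2 : ∀ b a, C.wd x = a ++ b → j + 1 ≤ last 0 a → (∀ k ∈ b, C.lam k ∈ N) →
        phi C.lam N ty (b ++ C.wd w) = j + 1 := by
      intro b
      induction b with
      | nil => intro a _ _ _; simpa using hphiw
      | cons k b ih =>
        intro a hab hja hK
        obtain ⟨d1, d2, d3⟩ := C.dec _ _ _ hab
        have hbN : el C.lam (k :: b) ∈ N := (inN _ d2).2 hK
        have hbW : el C.lam (k :: b) ∈ C.W (j+1) := C.W_anti _ _ hja d3
        have hel : el C.lam (k :: (b ++ C.wd w)) = el C.lam (k :: b) * w := by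
          rw [← List.cons_append, el_append, C.el_wd]
        have hmem : (k :: b) ∈ {b | b ∈ (C.wd x).tails} := by
          simp only [Set.mem_ofPred_eq, List.mem_tails]
          exact ⟨a, hab.symm⟩
        have h1 := hw1 _ hmem hbN hbW
        simp only [List.cons_append, phi, hel]
        rcases h1 with h1 | h1
        · rw [if_neg (by rw [h1]; simp), if_pos (hK k (by simp))]
          apply ih (a ++ [k]) (by rw [hab]; simp) ?_ (fun k' hk' => hK k' (by simp [hk']))
          rw [last_append]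
          simp only [last_cons, last_nil]
          have hs := C.sorted x
          rw [hab] at hs
          rcases last_mem 0 a with h2 | h2
          · omega
          · have := (List.pairwise_append.1 hs).2.2 _ h2 k (by simp)
            omega
        · rw [if_pos (by rw [h1]; omega), h1]
    change ct (q0 C.lam N ty) (C.wd (x * w)) = _
    rw [happ, ct_append (q0 C.lam N ty) (q1 C.lam N ty (j+1)) (C.wd x) (C.wd w), ct_q1 _ _ _ _ _ hxK]
    intro a m b hab
    have hab' : C.wd x = (a ++ [m]) ++ b := by rw [hab]; simp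
    have hKw : ∃ k ∈ b ++ C.wd w, C.lam k ∉ N := by
      obtain ⟨k, hk, hk2⟩ := hwK
      exact ⟨k, by simp [hk], hk2⟩
    unfold q0 q1
    by_cases hm : C.lam m ∈ N
    · constructor
      · intro h; exact absurd hm h.1
      · intro h; exact absurd hm h.1
    by_cases hKb : ∃ k ∈ b, C.lam k ∉ N
    · rw [phi1 b (a ++ [m]) hab' (by simp) hKb]
      constructor
      · intro h
        exact ⟨h.1, Or.inl ⟨hKb, h.2.2⟩⟩
      · intro h
        rcases h.2 with h2 | h2
        · exact ⟨h.1, hKw, h2.2⟩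
        · exact absurd hKb h2.1
    · have hlast : lastK C.lam N (C.wd x) = m := by
        rw [hab, lastK_append a (m :: b) ⟨m, by simp, hm⟩]
        simp only [lastK]
        rw [if_neg hKb, if_pos hm]
      have hallN : ∀ k ∈ b, C.lam k ∈ N := by
        intro k hk
        by_contra hc
        exact hKb ⟨k, hk, hc⟩
      rw [phi2 b (a ++ [m]) hab' (by rw [last_append]; simp only [last_cons, last_nil]; omega) hallN]
      constructor
      · intro h
        exact ⟨h.1, Or.inr ⟨hKb, h.2.2⟩⟩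
      · intro h
        rcases h.2 with h2 | h2
        · exact absurd h2.1 hKb
        · exact ⟨h.1, hKw, h2.2⟩
  -- irresolvability of F
  obtain ⟨x0, hx0F, hx0⟩ := ir hG hF {x | Odd (c x)}
  obtain ⟨O, hOs, hO, h1O⟩ := mem_nhds_iff.1 hx0
  have hO' : ∀ u ∈ O, x0 * u ∈ F → (Odd (c (x0 * u)) ↔ Odd (c x0)) := fun u hu hF => hOs hu hF
  have hOn : O ∈ 𝓝 (1:G) := hO.mem_nhds h1O
  -- choose u
  have hex : ∀ P : G → Prop, (∀ᶠ y in 𝓝 (1:G), P y) → ∃ u, u ∈ F ∧ u ∉ N ∧ P u := by
    intro P hP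
    have h1 : ∀ᶠ w in (q 0 : Filter G), P w := (hq1 0) hP
    have h2 : ∀ᶠ w in (q 0 : Filter G), w ∈ F := hqF 0
    have h3 : ∀ᶠ w in (q 0 : Filter G), w ∉ N := Ultrafilter.compl_mem_iff_notMem.2 (hqN 0)
    obtain ⟨w, hw⟩ := (h1.and (h2.and h3)).exists
    exact ⟨w, hw.2.1, hw.2.2, hw.1⟩
  have hmulN : ∀ x w, w ∈ C.W (C.t x) → w ∉ N → x * w ∉ N := by
    intro x w hw hwN h
    have hCU := CU x w hw
    by_cases hx : x ∈ N
    · exact hwN ((hCU.2.2.1 hx).1 h)
    · exact hCU.2.2.2.1 hx h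
  have hmulF : ∀ x w, w ∈ C.W (C.t x) → x ∈ F → w ∈ F → x * w ∈ F := by
    intro x w hw hx hwF
    exact ((CU x w hw).1 hx).2 hwF
  obtain ⟨u, huF, huN, huO, huW⟩ := hex (fun y => y ∈ O ∧ y ∈ C.W (C.t x0))
    (Filter.Eventually.and hOn (ev_W C _))
  set x := x0 * u with hx
  have hxF : x ∈ F := hmulF _ _ huW hx0F huF
  have hxN : x ∉ N := hmulN _ _ huW huN
  have hxK := (notN' x).1 hxN
  set τ := lastK C.lam N (C.wd x) with hτ
  have hτ1 : 1 ≤ τ := by
    have h1 : τ ∈ C.wd x := lastK_mem _ hxK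
    have := C.lt 0 x (by rw [C.W_zero]; trivial) τ h1
    omega
  obtain ⟨j, hj⟩ : ∃ j, τ = j + 1 := ⟨τ - 1, by omega⟩
  obtain ⟨u', hu'F, hu'N, ⟨hu'O, hu'W⟩, hu'W2⟩ := hex
    (fun y => (u * y ∈ O ∧ y ∈ C.W (C.t x)) ∧ y ∈ C.W τ)
    (((ev_open hO huO).and (ev_W C _)).and (ev_W C _))
  set x' := x * u' with hx'
  have hx'F : x' ∈ F := hmulF _ _ hu'W hxF hu'F
  have hx'N : x' ∉ N := hmulN _ _ hu'W hu'N
  have hu'K := (notN' u').1 hu'N
  have hτ' : τ < lastK C.lam N (C.wd x') := by
    rw [hx', C.app x u' hu'W, lastK_append _ _ hu'K]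
    exact C.lt τ u' hu'W2 _ (lastK_mem _ hu'K)
  have f1 := FL x hxF hxN j (by omega)
  have f2 := FL x' hx'F hx'N j (by omega)
  have g1 : ∀ᶠ w in (q j : Filter G), u * w ∈ O := (hq1 j) (ev_open hO huO)
  have g2 : ∀ᶠ w in (q j : Filter G), u * u' * w ∈ O := (hq1 j) (ev_open hO hu'O)
  have g3 : ∀ᶠ w in (q j : Filter G), w ∈ C.W (C.t x) := (hq1 j) (C.W_nhds _)
  have g4 : ∀ᶠ w in (q j : Filter G), w ∈ C.W (C.t x') := (hq1 j) (C.W_nhds _)
  have g5 : ∀ᶠ w in (q j : Filter G), w ∈ F := hqF j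
  obtain ⟨w, hw1, hw2, hw3, hw4, hw5, hw6, hw7⟩ :=
    (f1.and (f2.and (g1.and (g2.and (g3.and (g4.and g5)))))).exists
  have a1 := hO' (u * w) hw3 (by rw [← mul_assoc]; exact hmulF x w hw5 hxF hw7)
  have a2 := hO' (u * u' * w) hw4 (by
    have : x0 * (u * u' * w) = x' * w := by rw [hx', hx]; simp [mul_assoc]
    rw [this]; exact hmulF x' w hw6 hx'F hw7)
  have a3 := hO' u huO hxF
  have a4 := hO' (u * u') hu'O (by rw [← mul_assoc]; exact hx'F)
  have b1 : x0 * (u * w) = x * w := by rw [hx]; simp [mul_assoc]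
  have b2 : x0 * (u * u' * w) = x' * w := by rw [hx', hx]; simp [mul_assoc]
  have b3 : x0 * (u * u') = x' := by rw [hx', hx]; simp [mul_assoc]
  rw [b1, hw1, if_pos (by omega)] at a1
  rw [b2, hw2, if_neg (by omega)] at a2
  rw [b3] at a4
  change Odd (c x) ↔ _ at a3
  rw [← a3] at a1
  rw [← a4] at a2
  rw [Nat.odd_iff, Nat.odd_iff] at a1 a2
  omega

end H548R
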