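import Mathlib
import Pool.Agent.Helper548.R473.Abel

/-! The class of tame groups. -/

open Set Filter Topology

namespace H548R

lemma exists_div_nhds {G : Type*} [Group G] [TopologicalSpace G] [IsTopologicalGroup G] {S : Set G}
    (hS : S ∈ 𝓝 (1:G)) : ∃ V ∈ 𝓝 (1:G), ∀ x ∈ V, ∀ y ∈ V, x⁻¹ * y ∈ S := by
  have h1 : Tendsto (fun p : G × G => p.1⁻¹ * p.2) (𝓝 (1, 1)) (𝓝 1) := by
    have : Continuous (fun p : G × G => p.1⁻¹ * p.2) := by fun_prop
    have h := this.tendsto (1, 1)
    simpa using h
  have h2 := h1 hS
  rw [nhds_prod_eq, mem_map, mem_prod_same_iff] at h2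
  obtain ⟨V, hV, hVs⟩ := h2
  exact ⟨V, hV, fun x hx y hy => hVs (mk_mem_prod hx hy)⟩

/-- a subgroup of countable index -/
theorem good_of_index {G : Type*} [Group G] (H : Subgroup G) [Countable (G ⧸ H)] (hH : Good H) :
    Good G := by
  intro _ _ hres
  have hHres : NoRes H := fun h => hres (res_of_subgroup H h)
  obtain ⟨U, hU, hUc⟩ := hH hHres
  rw [nhds_subtype_eq_comap, mem_comap] at hU
  obtain ⟨S, hS, hSU⟩ := hU
  have hSc : (S ∩ (H : Set G)).Countable := by
    refine (hUc.image Subtype.val).mono ?_
    rintro x ⟨h1, h2⟩
    exact ⟨⟨x, h2⟩, hSU h1, rfl⟩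
  obtain ⟨V, hV, hVS⟩ := exists_div_nhds hS
  refine ⟨V, hV, ?_⟩
  have hcov : V ⊆ ⋃ c : G ⧸ H, {x | x ∈ V ∧ (x : G ⧸ H) = c} := by
    intro x h1
    simp only [mem_iUnion]
    exact ⟨_, h1, rfl⟩
  refine (countable_iUnion ?_).mono hcov
  intro c
  rcases Set.eq_empty_or_nonempty {x | x ∈ V ∧ (x : G ⧸ H) = c} with he | ⟨x0, hx0, hx0c⟩
  · rw [he]; exact countable_empty
  · refine ((hSc.image (fun s => x0 * s))).mono ?_
    rintro x ⟨h1, h2⟩
    refine ⟨x0⁻¹ * x, ⟨hVS _ hx0 _ h1, ?_⟩, by simp⟩
    exact QuotientGroup.eq.1 (by rw [hx0c, h2])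

/-- The smallest class of groups that contains the subgroups of restricted direct products of
countable groups and is closed under extensions and under passing from a subgroup of countable
index to the whole group. -/
inductive Tame : (G : Type) → [Group G] → Prop
  | restricted (G : Type) [Group G] (ι : Type) (D : ι → Type) [∀ i, Group (D i)]
      [∀ i, Countable (D i)] (φ : G →* (∀ i, D i)) (hφ : Function.Injective φ)
      (hfin : ∀ x, {i | φ x i ≠ 1}.Finite) : Tame G
  | extension (G : Type) [Group G] (N : Subgroup G) [N.Normal] (hN : Tame N)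
      (hQ : Tame (G ⧸ N)) : Tame G
  | index (G : Type) [Group G] (H : Subgroup G) [Countable (G ⧸ H)] (hH : Tame H) : Tame G

theorem good_of_tame (G : Type) [i : Group G] (h : Tame G) : Good G := by
  induction h with
  | restricted G ι D φ hφ hfin => exact @good_of_restricted G _ ι D _ _ φ hφ hfin
  | extension G N hN hQ ihN ihQ => exact @good_of_extension G _ N _ ihN ihQ
  | index G H hH ih => exact @good_of_index G _ H _ ih

theorem tame_of_countable (G : Type) [Group G] [Countable G] : Tame G :=
  Tame.restricted G Unit (fun _ => G)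
    { toFun := fun x _ => x, map_one' := rfl, map_mul' := fun _ _ => rfl }
    (fun _ _ h => congrFun h ()) (fun _ => Set.toFinite _)

theorem tame_of_comm (G : Type) [Group G] (hcomm : ∀ x y : G, x * y = y * x) : Tame G := by
  classical
  let _ : CommGroup G := { (inferInstance : Group G) with mul_comm := hcomm }
  obtain ⟨ι, h, hinj⟩ := exists_embedding (Additive G)
  have hc : Countable (Multiplicative EE) := EE_countable
  refine Tame.restricted G ι (fun _ => Multiplicative EE)
    { toFun := fun x i => Multiplicative.ofAdd (h (Additive.ofMul x) i)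
      map_one' := by
        funext i
        simp
      map_mul' := by
        intro x y
        funext i
        simp [ofMul_mul] } ?_ ?_
  · intro x y hxy
    have : h (Additive.ofMul x) = h (Additive.ofMul y) := by
      ext1 i
      have := congrFun hxy i
      exact this
    exact hinj this
  · intro x
    refine (h (Additive.ofMul x)).support.finite_toSet.subset ?_
    intro i hi
    simp only [Set.mem_ofPred_eq] at hi
    rw [Finset.mem_coe, Finsupp.mem_support_iff]
    intro h0
    apply hi
    change Multiplicative.ofAdd (h (Additive.ofMul x) i) = 1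
    rw [h0]; rfl

lemma map_derived (G : Type) [Group G] (n : ℕ) :
    (derivedSeries (derivedSeries G 1) n).map (derivedSeries G 1).subtype = derivedSeries G (n+1) := by
  induction n with
  | zero =>
    rw [derivedSeries_zero, ← MonoidHom.range_eq_map, Subgroup.range_subtype]
  | succ n ih =>
    rw [derivedSeries_succ (derivedSeries G 1) n, Subgroup.map_commutator, ih,
      ← derivedSeries_succ G (n+1)]

theorem tame_of_derived (n : ℕ) : ∀ (G : Type) [Group G], derivedSeries G n = ⊥ → Tame G := by
  induction n with
  | zero =>
    intro G _ h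
    have : Subsingleton G := by
      rw [derivedSeries_zero] at h
      exact (Subgroup.subsingleton_iff.1 (subsingleton_of_bot_eq_top h.symm))
    exact tame_of_countable G
  | succ n ih =>
    intro G _ h
    apply Tame.extension G (derivedSeries G 1)
    · apply ih
      have := map_derived G n
      rw [h] at this
      exact (Subgroup.map_eq_bot_iff_of_injective _ (Subgroup.subtype_injective _)).1 this
    · apply tame_of_comm
      intro x y
      induction x using QuotientGroup.induction_on with
      | H a =>
        induction y using QuotientGroup.induction_on with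
        | H b =>
          rw [← QuotientGroup.mk_mul, ← QuotientGroup.mk_mul, QuotientGroup.eq]
          have h1 : (a * b)⁻¹ * (b * a) = b⁻¹ * a⁻¹ * b⁻¹⁻¹ * a⁻¹⁻¹ := by group
          rw [h1, derivedSeries_one]
          exact Subgroup.commutator_mem_commutator (Subgroup.mem_top _) (Subgroup.mem_top _)

theorem tame_of_solvable (G : Type) [Group G] [h : Group.IsSolvable G] : Tame G := by
  obtain ⟨n, hn⟩ := h.solvable
  exact tame_of_derived n G hn

end H548R
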